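import Pool.Agent.Helper35_QL3.Defs

/-!
# App3 (degenerate case) of MP_6429f2_nt: module statements
For a module `X` prove `theorem x (h1 : QL3.AStatement) ... : QL3.XStatement` in your own file.
-/

set_option autoImplicit false
set_option linter.unusedVariables false
open Matrix Polynomial MeasureTheory Set Filter Topology

namespace QL3
open QL

/-! ## further definitions -/

/-- the list of tubes -/
noncomputable def TL {d : ℕ} (B : Matrix (Fin d) (Fin d) ℝ) : List (Tube (I d)) :=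
  [tube2 (Submodule.span ℝ {QB B, vecMulVec (LB d) (LB d)}), tube1 (LB d)]

/-- `e_z` -/
noncomputable def ez (d : ℕ) : I d → ℝ := Pi.single (Sum.inr 1) 1

/-- `Q M adj(Mᵀ Q M) Mᵀ Q` -/
noncomputable def Psi {d k : ℕ} (Q : Matrix (I d) (I d) ℝ) (M : Matrix (I d) (Fin k) ℝ) :
    Matrix (I d) (I d) ℝ :=
  Q * M * (Mᵀ * Q * M).adjugate * (Mᵀ * Q)

/-- `M adj(Q) Mᵀ` -/
noncomputable def Omega {d : ℕ} (Q M : Matrix (I d) (I d) ℝ) : Matrix (I d) (I d) ℝ :=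
  M * Q.adjugate * Mᵀ

/-- `L ∧ α` -/
def LA {d : ℕ} (α : I d → ℝ) : Matrix (I d) (I d) ℝ :=
  vecMulVec (LB d) α - vecMulVec α (LB d)

/-- a sequence of returns of the orbit of `x` to `x` in direction `ω0`:
`g_i x = u_{w_i} x γ_i`, `g_i → 1`, `w_i / T_i → ω0` -/
structure RetSeq {d : ℕ} (B : Matrix (Fin d) (Fin d) ℝ) (x : Matrix (I d) (I d) ℝ)
    (ω0 : Fin d → ℝ) (w : ℕ → Fin d → ℝ) (γ g : ℕ → Matrix (I d) (I d) ℝ) : Prop where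
  det_x : x.det = 1
  gam : ∀ i, γ i ∈ Gam (I d)
  det_g : ∀ i, (g i).det = 1
  rel : ∀ i, g i * x = uB B (w i) * x * γ i
  lim : Tendsto g atTop (𝓝 1)
  dir : ∃ T : ℕ → ℝ, Tendsto T atTop atTop ∧ Tendsto (fun i => (T i)⁻¹ • w i) atTop (𝓝 ω0)

/-- `N` acts trivially on the `U`-fixed Pluecker vectors and 2-tensors of the lattice `x` -/
def Comp {d : ℕ} (B : Matrix (Fin d) (Fin d) ℝ) (x N : Matrix (I d) (I d) ℝ) : Prop :=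
  (∀ k : ℕ, 0 < k → k < Fintype.card (I d) → ∀ A : Matrix (I d) (Fin k) ℤ,
    (∃ i : Fin k → I d, (A.submatrix i id).det ≠ 0) →
    (∀ w, pl (uB B w * (x * im A)) = pl (x * im A)) →
    pl (N * (x * im A)) = pl (x * im A)) ∧
  (∀ R : (Fin 2 → I d) → ℤ,
    (∀ w, ract false 2 (uB B w) (ract false 2 x (iv R)) = ract false 2 x (iv R)) →
    ract false 2 N (ract false 2 x (iv R)) = ract false 2 x (iv R))

/-! ## N: delta version of NL_seq (helper97) -/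
def NL_seq2Statement : Prop :=
  ∀ (ι : Type) [Fintype ι] [DecidableEq ι] [Nonempty ι] (L : List (Tube ι))
    (hU : UniqL L) (D : ℕ) (κ : ℝ) (hκ : 0 < κ) (P : ℕ → Matrix ι ι ℝ[X])
    (hdeg : ∀ m i j, (P m i j).natDegree ≤ D) (hdet : ∀ m τ, (ev (P m) τ).det = 1)
    (hND : ∀ m, ND κ (ev (P m)))
    (hH : ∀ R : ℕ, ∃ δ > 0, ∃ m0, ∀ m ≥ m0, ∀ T ∈ L, ∀ w : (Fin T.k → ι) → ℤ, w ≠ 0 →
      ∃ τ ∈ Icc (0 : ℝ) 1, (∃ c, (R : ℝ) ≤ |ract false T.k (ev (P m) τ) (iv w) c|) ∨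
        (∃ c, δ ≤ |T.Pi (ract false T.k (ev (P m) τ) (iv w)) c|)),
    ∃ z ∈ ns L, ∃ f : ℕ → ℕ, StrictMono f ∧ ∃ τ : ℕ → ℝ, (∀ m, τ m ∈ Icc (0 : ℝ) 1) ∧
      ∃ γ : ℕ → Matrix ι ι ℝ, (∀ m, γ m ∈ Gam ι) ∧
        Tendsto (fun m => ev (P (f m)) (τ m) * γ m) atTop (𝓝 z)

/-! ## A: `U`-fixed forms -/

/-- compare coefficients; it is enough to use `w` and `2 w`, `-w` (or differentiate by hand) -/
def fixMatStatement : Prop :=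
  ∀ {d : ℕ} (B : Matrix (Fin d) (Fin d) ℝ) (hB : BOK B) (M : Matrix (I d) (I d) ℝ)
    (h : ∀ w, (uB B w)ᵀ * M * uB B w = M),
    ∃ (a b : ℝ) (α : I d → ℝ), α (Sum.inr 0) = 0 ∧ α (Sum.inr 1) = 0 ∧
      M = a • QB B + b • LL d + LA α

def fixVecStatement : Prop :=
  ∀ {d : ℕ} (B : Matrix (Fin d) (Fin d) ℝ) (hB : BOK B) (m : I d → ℝ)
    (h : ∀ w, m ᵥ* uB B w = m), m = m (Sum.inr 0) • LB d

def fixPairStatement : Prop :=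
  ∀ {d : ℕ} (B : Matrix (Fin d) (Fin d) ℝ) (hB : BOK B) (q : W (I d)) (hs : q.1ᵀ = q.1)
    (h : ∀ w, act q (uB B w) = q),
    q = ((2 * q.1 (Sum.inr 0) (Sum.inr 1)) • QB B + q.1 (Sum.inr 0) (Sum.inr 0) • LL d,
      q.2 (Sum.inr 0) • LB d)

/-! ## B: explicit matrices -/

def detQStatement : Prop :=
  ∀ {d : ℕ} (B : Matrix (Fin d) (Fin d) ℝ) (hB : BOK B),
    (QB B).det ≠ 0 ∧ (∀ a b : ℝ, (a • QB B + b • LL d).det = a ^ (d + 2) * (QB B).det) ∧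
    (QB B)ᵀ = QB B ∧
    (QB B).adjugate = (QB B).det • Matrix.fromBlocks B 0 0 !![0, 2; 2, 0]

def actStatement : Prop :=
  ∀ {d : ℕ} (B : Matrix (Fin d) (Fin d) ℝ) (hB : BOK B),
    (∀ w, act (pB B) (uB B w) = pB B) ∧ pB B = fP B 0 1 ∧
    (∀ (o : Matrix (Fin d) (Fin d) ℝ) (c b : ℝ), c ≠ 0 → (nB o c b).det = o.det) ∧
    (∀ (o : Matrix (Fin d) (Fin d) ℝ) (c b : ℝ), c ≠ 0 → oᵀ * B * o = B →
      act (pB B) (nB o c b) = fP B b c ∧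
      ∀ b' c' : ℝ, act (fP B b' c') (nB o c b)⁻¹ = fP B ((b' - b) / c ^ 2) (c' / c))

/-- rank of the pencil: `a Q + b L^2` is not of rank one for `a ≠ 0` -/
def rankStatement : Prop :=
  ∀ {d : ℕ} (B : Matrix (Fin d) (Fin d) ℝ) (hB : BOK B) (a b : ℝ), a ≠ 0 →
    ¬ ∃ v v' : I d → ℝ, a • QB B + b • vecMulVec (LB d) (LB d) = vecMulVec v v'

/-! ## C: tensors, tubes -/

def ract1Statement : Prop :=
  ∀ {ι : Type} [Fintype ι] [DecidableEq ι] (x : Matrix ι ι ℝ) (l : ι → ℝ),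
    ract false 1 x (fun i => l (i 0)) = fun i => (l ᵥ* x⁻¹) (i 0)

def ract2Statement : Prop :=
  ∀ {ι : Type} [Fintype ι] [DecidableEq ι] (x M : Matrix ι ι ℝ),
    ract false 2 x (mt M) = mt ((x⁻¹)ᵀ * M * x⁻¹)

/-- from the tube lemmas of `QL` -/
def tlStatement : Prop :=
  ∀ {d : ℕ} (B : Matrix (Fin d) (Fin d) ℝ) (hB : BOK B),
    UniqL (TL B) ∧
    (∀ T ∈ TL B, ∀ v, T.Pi v = 0 → ∀ w, ract false T.k ((UB B hB.symm).u w) v = v) ∧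
    ∀ x : Matrix (I d) (I d) ℝ, x ∈ ns (TL B) ↔ (x.det = 1 ∧
      (∀ w : I d → ℤ, w ≠ 0 → ¬ ∃ c : ℝ, iv w = c • (LB d ᵥ* x)) ∧
      (∀ R : Matrix (I d) (I d) ℤ, R ≠ 0 → ¬ ∃ a b : ℝ,
        im R = a • (xᵀ * QB B * x) + b • vecMulVec (LB d ᵥ* x) (LB d ᵥ* x)))

/-! ## D: discreteness and Pluecker vectors -/

def discStatement : Prop :=
  ∀ {ι : Type} [Fintype ι] [DecidableEq ι] (x : Matrix ι ι ℝ) (hx : x.det = 1) (b : Bool)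
    (k : ℕ) (R : (Fin k → ι) → ℤ) (g u γ : ℕ → Matrix ι ι ℝ) (hg : ∀ i, (g i).det = 1)
    (hu : ∀ i, (u i).det = 1) (hγ : ∀ i, γ i ∈ Gam ι) (hrel : ∀ i, g i * x = u i * x * γ i)
    (hlim : Tendsto g atTop (𝓝 1))
    (hfix : ∀ i, ract b k (u i) (ract b k x (iv R)) = ract b k x (iv R)),
    ∀ᶠ i in atTop, ract b k (g i) (ract b k x (iv R)) = ract b k x (iv R)

def plEqStatement : Prop :=
  ∀ {ι : Type} [Fintype ι] [DecidableEq ι] {k : ℕ} (M M' : Matrix ι (Fin k) ℝ)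
    (h : ∃ i : Fin k → ι, (M.submatrix i id).det ≠ 0) (hpl : pl M' = pl M),
    ∃ κ : Matrix (Fin k) (Fin k) ℝ, κ.det = 1 ∧ M' = M * κ

/-- `U`-invariant subspaces: contained in `ker L`, contain `e_z` -/
def structStatement : Prop :=
  ∀ {d : ℕ} (B : Matrix (Fin d) (Fin d) ℝ) (hB : BOK B) (k : ℕ), 0 < k →
    k < Fintype.card (I d) → ∀ M : Matrix (I d) (Fin k) ℝ,
    (∃ i : Fin k → I d, (M.submatrix i id).det ≠ 0) →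
    (∀ w, ∃ κ : Matrix (Fin k) (Fin k) ℝ, κ.det = 1 ∧ uB B w * M = M * κ) →
    LB d ᵥ* M = 0 ∧ ∃ a, M *ᵥ a = ez d

/-! ## E: the relation forcing `c ^ 2 = 1` -/

def adjZeroStatement : Prop :=
  ∀ {k : ℕ} (S : Matrix (Fin k) (Fin k) ℝ), S.adjugate = 0 → ∀ j : Fin k,
    ∃ b : Fin k → ℝ, b ≠ 0 ∧ S *ᵥ b = 0 ∧ b j = 0

def psiInvStatement : Prop :=
  ∀ {d k : ℕ} (Q g : Matrix (I d) (I d) ℝ) (M : Matrix (I d) (Fin k) ℝ)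
    (κ : Matrix (Fin k) (Fin k) ℝ),
    Psi (gᵀ * Q * g) M = gᵀ * Psi Q (g * M) * g ∧ Psi Q (M * κ) = κ.det ^ 2 • Psi Q M

/-- `Psi Q M` is a `U`-fixed symmetric form killing `e_z`; nonvanishing from `adjZero` -/
def psiFormStatement : Prop :=
  ∀ {d : ℕ} (B : Matrix (Fin d) (Fin d) ℝ) (hB : BOK B) (k : ℕ), 0 < k →
    k < Fintype.card (I d) → ∀ M : Matrix (I d) (Fin k) ℝ,
    (∃ i : Fin k → I d, (M.submatrix i id).det ≠ 0) →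
    (∀ w, ∃ κ : Matrix (Fin k) (Fin k) ℝ, κ.det = 1 ∧ uB B w * M = M * κ) →
    ∃ θ : ℝ, (∀ b : ℝ, Psi (QB B + b • LL d) M = θ • LL d) ∧
      (θ = 0 → B ≠ 1 ∧ ∃ j : Fin d, (∀ a, ∀ j' ≠ j, (M *ᵥ a) (Sum.inl j') = 0) ∧
        ∃ a, (M *ᵥ a) (Sum.inl j) ≠ 0)

def omegaStatement : Prop :=
  ∀ {d : ℕ} (B : Matrix (Fin d) (Fin d) ℝ) (hB : BOK B) (α : I d → ℝ)
    (h0 : α (Sum.inr 0) = 0) (h1 : α (Sum.inr 1) = 0),
    ∃ θ : ℝ, (∀ b : ℝ, Omega (QB B + b • LL d) (LA α) = θ • LL d) ∧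
      (θ = 0 → α ≠ 0 → B ≠ 1 ∧ ∃ j : Fin d, ∀ j' ≠ j, α (Sum.inl j') = 0) ∧
      (∀ g : Matrix (I d) (I d) ℝ, g.det = 1 → gᵀ * LA α * g = LA α →
        Omega (gᵀ * QB B * g) (LA α) = θ • vecMulVec (LB d ᵥ* g) (LB d ᵥ* g))

/-- `U`-fixed integer 2-tensors of a nonsingular lattice (from fixMat, ract2, tl: twice the
symmetric part is integral and in the span of `Q, L^2`, hence zero) -/
def intFixStatement : Prop :=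
  ∀ {d : ℕ} (B : Matrix (Fin d) (Fin d) ℝ) (hB : BOK B) (x : Matrix (I d) (I d) ℝ)
    (hx : x ∈ ns (TL B)) (R : (Fin 2 → I d) → ℤ)
    (hfix : ∀ w, ract false 2 (uB B w) (ract false 2 x (iv R)) = ract false 2 x (iv R)),
    ∃ α : I d → ℝ, α (Sum.inr 0) = 0 ∧ α (Sum.inr 1) = 0 ∧ ract false 2 x (iv R) = mt (LA α)

/-- the dichotomy -/
def dichoStatement : Prop :=
  ∀ {d : ℕ} (B : Matrix (Fin d) (Fin d) ℝ) (hB : BOK B) (x : Matrix (I d) (I d) ℝ)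
    (hx : x ∈ ns (TL B)) (ω0 : Fin d → ℝ) (w : ℕ → Fin d → ℝ)
    (γ g : ℕ → Matrix (I d) (I d) ℝ) (h : RetSeq B x ω0 w γ g),
    (∃ i0 : ℕ, ∀ b c : ℝ,
      fP B b c ∈ closure {q | ∃ i ≥ i0, ∃ w', q = act (act (pB B) (g i)) (uB B w')} →
      c ^ 2 = 1) ∨
    (∃ o : ℝ → Matrix (Fin d) (Fin d) ℝ, ∀ c : ℝ, c ≠ 0 →
      (o c)ᵀ * B * o c = B ∧ (o c).det = 1 ∧ ∀ b, Comp B x (nB (o c) c b))

def compVStatement : Prop :=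
  ∀ {d : ℕ} (B : Matrix (Fin d) (Fin d) ℝ) (hB : BOK B) (x : Matrix (I d) (I d) ℝ)
    (hx : x ∈ ns (TL B)) (b : ℝ), Comp B x (nB 1 1 b)

/-! ## F: returns -/

def retSeqStatement : Prop :=
  ∀ {d : ℕ} (B : Matrix (Fin d) (Fin d) ℝ) (hB : BOK B) (Y : Set (Matrix (I d) (I d) ℝ))
    (x : Matrix (I d) (I d) ℝ) (hx : x.det = 1) (hxY : x ∈ Y) (hret : Ret (UB B hB.symm) Y x)
    (ω0 : Fin d → ℝ) (hω : ω0 ≠ 0),
    ∃ w γ g, RetSeq B x ω0 w γ g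

/-- case (β): all `p ∘ g_i` are `U`-fixed -/
def betaStatement : Prop :=
  ∀ {d : ℕ} (B : Matrix (Fin d) (Fin d) ℝ) (hB : BOK B) (x : Matrix (I d) (I d) ℝ)
    (ω0 : Fin d → ℝ) (hω : ω0 ⬝ᵥ B *ᵥ ω0 ≠ 0) (w : ℕ → Fin d → ℝ)
    (γ g : ℕ → Matrix (I d) (I d) ℝ) (h : RetSeq B x ω0 w γ g)
    (hfix : ∀ i, ∀ w', act (act (pB B) (g i)) (uB B w') = act (pB B) (g i)),
    ∃ R : I d → ℤ, R ≠ 0 ∧ ∃ c : ℝ, iv R = c • (LB d ᵥ* x)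

/-- shape of the drift curve -/
def alphaStatement : Prop :=
  ∀ {d : ℕ} (B : Matrix (Fin d) (Fin d) ℝ) (hB : BOK B) (g : ℕ → Matrix (I d) (I d) ℝ)
    (hg : ∀ i, (g i).det = 1) (A : Matrix (I d) (I d) ℝ[X]) (l : I d → ℝ[X])
    (h0 : (ev A 0, fun i => (l i).eval 0) = pB B)
    (hfix : ∀ t w, act (ev A t, fun i => (l i).eval t) (uB B w) =
      (ev A t, fun i => (l i).eval t))
    (hcl : ∀ t, (ev A t, fun i => (l i).eval t) ∈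
      closure {q | ∃ i w, q = act (act (pB B) (g i)) (uB B w)}),
    ∃ b c : ℝ[X], b.eval 0 = 0 ∧ c.eval 0 = 1 ∧
      ∀ t, (ev A t, fun i => (l i).eval t) = fP B (b.eval t) (c.eval t)

/-- the curve with compensation -/
def curveStatement : Prop :=
  ∀ {d : ℕ} (B : Matrix (Fin d) (Fin d) ℝ) (hB : BOK B) (S : Set (ℝ × ℝ)) (hS : IsClosed S)
    (Y : Set (Matrix (I d) (I d) ℝ)) (hY : ∀ x' ∈ Y, (x', pB B) ∈ DD S)
    (x : Matrix (I d) (I d) ℝ) (hxY : x ∈ Y) (hx : x ∈ ns (TL B))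
    (hret : Ret (UB B hB.symm) Y x),
    ∃ b c : ℝ[X], b.eval 0 = 0 ∧ c.eval 0 = 1 ∧ ¬ (b = 0 ∧ c = 1) ∧
      (∀ t : ℝ, ∀ x' ∈ Y, (x', fP B (b.eval t) (c.eval t)) ∈ DD S) ∧
      (∀ t : ℝ, c.eval t ≠ 0 → ∃ o : Matrix (Fin d) (Fin d) ℝ, oᵀ * B * o = B ∧ o.det = 1 ∧
        Comp B x (nB o (c.eval t) (b.eval t)))

/-! ## G: the limit step -/

/-- from NL_seq2, growth, nd_path, goodDir_dense, UAct_ray -/
def limStepStatement : Prop :=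
  ∀ {d : ℕ} (B : Matrix (Fin d) (Fin d) ℝ) (hB : BOK B) (x : Matrix (I d) (I d) ℝ)
    (hx : x ∈ ns (TL B)) (N : ℕ → Matrix (I d) (I d) ℝ) (hN : ∀ m, (N m).det = 1)
    (hC : ∀ m, Comp B x (N m)),
    ∃ z ∈ ns (TL B), ∃ f : ℕ → ℕ, StrictMono f ∧ ∃ s : ℕ → Fin d → ℝ,
      ∃ γ : ℕ → Matrix (I d) (I d) ℝ, (∀ m, γ m ∈ Gam (I d)) ∧
        Tendsto (fun m => N (f m) * (uB B (s m) * x * γ m)) atTop (𝓝 z)

def polyLimStatement : Prop :=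
  ∀ b c : ℝ[X], b.eval 0 = 0 → c.eval 0 = 1 → ¬ (b = 0 ∧ c = 1) →
    (∀ᶠ t : ℝ in atTop, c.eval t ≠ 0) ∧
    ((∀ r : ℝ, ∃ s : ℝ → ℝ,
        Tendsto (fun t => (b.eval (t + s t) - b.eval t) / (c.eval t) ^ 2) atTop (𝓝 r) ∧
        Tendsto (fun t => c.eval (t + s t) / c.eval t) atTop (𝓝 1)) ∨
     (∃ β : ℝ, ∀ r : ℝ, 0 < r → ∃ s : ℝ → ℝ,
        Tendsto (fun t => (b.eval (t + s t) - b.eval t) / (c.eval t) ^ 2) atTop
          (𝓝 (β * (r ^ 2 - 1))) ∧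
        Tendsto (fun t => c.eval (t + s t) / c.eval t) atTop (𝓝 r)))

/-- from limStep, polyLim, act and DD_left, DD_gam, DD_closed -/
def limDDStatement : Prop :=
  ∀ {d : ℕ} (B : Matrix (Fin d) (Fin d) ℝ) (hB : BOK B) (S : Set (ℝ × ℝ)) (hS : IsClosed S)
    (Y : Set (Matrix (I d) (I d) ℝ)) (hY : Inv (UB B hB.symm) Y)
    (x : Matrix (I d) (I d) ℝ) (hxY : x ∈ Y) (hx : x ∈ ns (TL B)) (b c : ℝ[X])
    (hb : b.eval 0 = 0) (hc : c.eval 0 = 1) (hbc : ¬ (b = 0 ∧ c = 1))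
    (hDD : ∀ t : ℝ, ∀ x' ∈ Y, (x', fP B (b.eval t) (c.eval t)) ∈ DD S)
    (hcomp : ∀ t : ℝ, c.eval t ≠ 0 → ∃ o : Matrix (Fin d) (Fin d) ℝ, oᵀ * B * o = B ∧
      o.det = 1 ∧ Comp B x (nB o (c.eval t) (b.eval t))),
    ∃ z ∈ ns (TL B), (∀ r : ℝ, (z, fP B r 1) ∈ DD S) ∨
      (∃ β : ℝ, ∀ r : ℝ, 0 < r → (z, fP B (β * (r ^ 2 - 1)) r) ∈ DD S)

/-! ## H: final step -/

/-- from dense_lin -/
def final1Statement : Prop :=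
  ∀ {d : ℕ} (B : Matrix (Fin d) (Fin d) ℝ) (hB : BOK B) (S : Set (ℝ × ℝ)) (hS : IsClosed S)
    (z : Matrix (I d) (I d) ℝ) (hz : z ∈ ns (TL B)) (h : ∀ r : ℝ, (z, fP B r 1) ∈ DD S),
    S = Set.univ

/-- from oppn -/
def final2Statement : Prop :=
  ∀ {d : ℕ} (B : Matrix (Fin d) (Fin d) ℝ) (hB : BOK B) (S : Set (ℝ × ℝ)) (hS : IsClosed S)
    (z : Matrix (I d) (I d) ℝ) (hz : z ∈ ns (TL B)) (β : ℝ)
    (h : ∀ r : ℝ, 0 < r → (z, fP B (β * (r ^ 2 - 1)) r) ∈ DD S),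
    S = Set.univ

end QL3
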