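import Pool.Agent.Helper27_QL.Stmt

/-!
# Definitions for App3 (degenerate case) of MP_6429f2_nt
-/

set_option autoImplicit false
open Matrix Polynomial MeasureTheory Set Filter Topology

namespace QL3
open QL

/-- index type: `y = inl i`, `s = inr 0`, `z = inr 1` -/
abbrev I (d : ℕ) := Fin d ⊕ Fin 2

/-- admissible forms in the `y` variables -/
def BOK {d : ℕ} (B : Matrix (Fin d) (Fin d) ℝ) : Prop :=
  2 ≤ d ∧ (B = 1 ∨ (d = 2 ∧ ∀ i j, B i j = if i = j then 0 else 1))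

/-- `u_w : (s, y, z) ↦ (s, y + s w, z - 2 <w,y> - <w,w> s)` -/
def uB {d : ℕ} (B : Matrix (Fin d) (Fin d) ℝ) (w : Fin d → ℝ) : Matrix (I d) (I d) ℝ :=
  fromBlocks 1 (of fun i j => ![w i, 0] j) (of fun i j => ![0, -2 * (w ᵥ* B) j] i)
    !![1, 0; -(w ⬝ᵥ B *ᵥ w), 1]

/-- `(s, y, z) ↦ (c s, o y, (z + b s) / c)` -/
noncomputable def nB {d : ℕ} (o : Matrix (Fin d) (Fin d) ℝ) (c b : ℝ) : Matrix (I d) (I d) ℝ :=
  fromBlocks o 0 0 !![c, 0; b / c, c⁻¹]

/-- the pair `(Q, L)` -/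
noncomputable def pB {d : ℕ} (B : Matrix (Fin d) (Fin d) ℝ) : W (I d) := (QB B, LB d)

/-- `L ⊗ L` -/
noncomputable def LL (d : ℕ) : Matrix (I d) (I d) ℝ := vecMulVec (LB d) (LB d)

/-- the pair `(Q + b L^2, c L)` -/
noncomputable def fP {d : ℕ} (B : Matrix (Fin d) (Fin d) ℝ) (b c : ℝ) : W (I d) :=
  (QB B + b • LL d, c • LB d)

theorem BOK.symm {d : ℕ} {B : Matrix (Fin d) (Fin d) ℝ} (h : BOK B) : Bᵀ = B := by
  rcases h.2 with h | ⟨_, h⟩
  · rw [h, transpose_one]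
  · ext i j
    rw [transpose_apply, h, h]
    simp only [eq_comm]

theorem BOK.sq {d : ℕ} {B : Matrix (Fin d) (Fin d) ℝ} (h : BOK B) : B * B = 1 := by
  rcases h.2 with h | ⟨hd, h⟩
  · rw [h, one_mul]
  · subst hd
    ext i j
    rw [mul_apply, Fin.sum_univ_two, h, h, h, h]
    fin_cases i <;> fin_cases j <;> simp

theorem symm_swap {d : ℕ} {B : Matrix (Fin d) (Fin d) ℝ} (h : Bᵀ = B) (v w : Fin d → ℝ) :
    v ⬝ᵥ B *ᵥ w = w ⬝ᵥ B *ᵥ v := by
  rw [dotProduct_mulVec, dotProduct_comm, ← mulVec_transpose, h]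

theorem uB_det {d : ℕ} (B : Matrix (Fin d) (Fin d) ℝ) (w : Fin d → ℝ) : (uB B w).det = 1 := by
  unfold uB
  rw [det_fromBlocks_one₁₁, det_fin_two]
  simp [mul_apply]

theorem uB_add {d : ℕ} {B : Matrix (Fin d) (Fin d) ℝ} (h : Bᵀ = B) (w w' : Fin d → ℝ) :
    uB B (w + w') = uB B w * uB B w' := by
  unfold uB
  rw [fromBlocks_multiply]
  have key : (w ᵥ* B) ⬝ᵥ w' = w ⬝ᵥ B *ᵥ w' := (dotProduct_mulVec _ _ _).symm
  have key2 := symm_swap h w' w
  congr 1
  · ext i j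
    simp [mul_apply, one_apply]
  · ext i j
    fin_cases j <;> simp [mul_apply, add_comm]
  · ext i j
    rw [Matrix.mul_one, Matrix.add_apply, mul_apply, Fin.sum_univ_two]
    fin_cases i <;> simp [add_vecMul]
    ring
  · ext i j
    rw [Matrix.add_apply, mul_apply, mul_apply, Fin.sum_univ_two]
    fin_cases i <;> fin_cases j <;> simp [mulVec_add, add_dotProduct, dotProduct_add]
    rw [key2, ← key]
    simp only [dotProduct]
    have : ∑ x, 2 * (w ᵥ* B) x * w' x = 2 * ∑ x, (w ᵥ* B) x * w' x := by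
      rw [Finset.mul_sum]
      exact Finset.sum_congr rfl fun _ _ => by ring
    rw [this]
    ring

/-- the unipotent group -/
noncomputable def UB {d : ℕ} (B : Matrix (Fin d) (Fin d) ℝ) (h : Bᵀ = B) : UAct (I d) d where
  pol := fromBlocks 1 (of fun i j => ![MvPolynomial.X i, 0] j)
    (of fun i j => ![0, -2 * ∑ k, MvPolynomial.X k * MvPolynomial.C (B k j)] i)
    !![1, 0; -(∑ k, MvPolynomial.X k * ∑ j, MvPolynomial.C (B k j) * MvPolynomial.X j), 1]
  u := uB B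
  spec := by
    intro w i j
    rcases i with i | i <;> rcases j with j | j
    · simp only [uB, fromBlocks_apply₁₁, one_apply]
      split_ifs <;> simp
    · fin_cases j <;> simp [uB]
    · fin_cases i <;> simp [uB, vecMul, dotProduct]
    · fin_cases i <;> fin_cases j <;> simp [uB, mulVec, dotProduct]
  det_one := uB_det B
  add := uB_add h

end QL3
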